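import Pool.Agent.helper96.PP2.SpecB

namespace Pool.Agent.PP2

open Topology Matrix Filter

theorem ADM_row (hHAV : HAV_stmt) (hLTR : LTR_stmt) (hLLE : LLE_stmt) (hLCM : LCM_stmt) :
    ADM_stmt := by
  intro p R _ _ _ _ _ _ J hp hp2 h Γ hΓ n
  have hanti : ∀ m k, Lc Γ (m + k) ≤ Lc Γ m := by
    intro m k
    induction k with
    | zero => exact le_refl _
    | succ k ih => exact ((hLLE R Γ).1 (m + k)).trans ih
  have h0 : Lc Γ n ≤ LL Γ := by
    have := hanti 0 n
    rw [zero_add] at this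
    exact this
  exact
    { closed := (hLTR p R J hp hp2 h Γ hΓ n).1
      tr := fun X hX => ((hLTR p R J hp hp2 h Γ hΓ n).2 X hX).1
      ent := fun X hX => ((hLTR p R J hp hp2 h Γ hΓ n).2 X hX).2
      half := fun X hX => (hHAV p R J hp hp2 h).1 _ (hLTR p R J hp hp2 h Γ hΓ n).1 X hX
      br := fun X hX Y hY => by
        have h1 := (hLLE R Γ).2 n n X hX Y hY
        rw [add_assoc] at h1
        exact hanti n (n + 1) h1
      bf := fun X hX Y hY Z hZ => hLCM p R J hp hp2 h Γ hΓ n X (h0 hX) Y (h0 hY) Z hZ }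

end Pool.Agent.PP2
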