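import Pool.Agent.helper96.PP2.SpecB

namespace Pool.Agent.PP2

open Topology Matrix Filter

theorem HAV_pow {p : ℕ} {R : Type} [CommRing R] [TopologicalSpace R] [IsTopologicalRing R]
    {J : Ideal R} (h : Setup p R J) : Tendsto (fun k : ℕ => (p : R) ^ k) atTop (𝓝 0) := by
  rw [tendsto_def]
  intro s hs
  obtain ⟨I, hI, hIs⟩ := h.basis s hs
  obtain ⟨n, hn⟩ := h.nil I hI
  rw [mem_atTop_sets]
  refine ⟨n, fun k hk => ?_⟩
  apply hIs
  apply hn
  apply Ideal.pow_le_pow_right hk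
  exact Ideal.pow_mem_pow h.pmem k

theorem HAV_nat {p : ℕ} {R : Type} [CommRing R] [TopologicalSpace R] [IsTopologicalRing R]
    [Invertible (2 : R)] {J : Ideal R} (hp : p.Prime) (hp2 : p ≠ 2) (h : Setup p R J) :
    Tendsto (fun k : ℕ => (((p ^ k + 1) / 2 : ℕ) : R)) atTop (𝓝 (⅟(2 : R))) := by
  have hodd : Odd p := hp.odd_of_ne_two hp2
  have e : (fun k : ℕ => (((p ^ k + 1) / 2 : ℕ) : R))
      = fun k : ℕ => ⅟(2 : R) * ((p : R) ^ k + 1) := by
    funext k
    have h1 : 2 * ((p ^ k + 1) / 2) = p ^ k + 1 := by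
      apply Nat.mul_div_cancel'
      exact (hodd.pow.add_odd odd_one).two_dvd
    have h2 : (2 : R) * (((p ^ k + 1) / 2 : ℕ) : R) = (p : R) ^ k + 1 := by
      exact_mod_cast congrArg (Nat.cast : ℕ → R) h1
    rw [← h2, ← mul_assoc, invOf_mul_self, one_mul]
  rw [e]
  have h3 : Tendsto (fun k : ℕ => ⅟(2 : R) * ((p : R) ^ k + 1)) atTop
      (𝓝 (⅟(2 : R) * (0 + 1))) :=
    ((HAV_pow h).add tendsto_const_nhds).const_mul _
  simpa using h3

theorem HAV_row : HAV_stmt := by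
  intro p R _ _ _ _ _ _ J hp hp2 h
  have hn := HAV_nat hp hp2 h
  constructor
  · intro N hN X hX
    have h1 : Tendsto (fun k : ℕ => (((p ^ k + 1) / 2 : ℕ) : R) • X) atTop
        (𝓝 (⅟(2 : R) • X)) := hn.smul_const X
    refine hN.mem_of_tendsto h1 (Eventually.of_forall fun k => ?_)
    rw [Nat.cast_smul_eq_nsmul]
    exact N.nsmul_mem hX _
  · intro N hN x hx
    have h1 : Tendsto (fun k : ℕ => (((p ^ k + 1) / 2 : ℕ) : R) * x) atTop
        (𝓝 (⅟(2 : R) * x)) := hn.mul_const x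
    refine hN.mem_of_tendsto h1 (Eventually.of_forall fun k => ?_)
    rw [← nsmul_eq_mul]
    exact N.nsmul_mem hx _

end Pool.Agent.PP2
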