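import Pool.Agent.helper96.PP2.SpecB

namespace Pool.Agent.PP2

open Topology Matrix Filter

section

variable {R : Type} [CommRing R]

/-- bracket with a fixed second argument -/
def LBR_l (Y : M2 R) : M2 R →+ M2 R where
  toFun X := Br X Y
  map_zero' := by simp [Br]
  map_add' := fun X X' => Lib_add_Br X X' Y

/-- bracket with a fixed first argument -/
def LBR_r (X : M2 R) : M2 R →+ M2 R where
  toFun Y := Br X Y
  map_zero' := by simp [Br]
  map_add' := fun Y Y' => Lib_Br_add X Y Y'

variable [TopologicalSpace R] [IsTopologicalRing R]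

theorem LBR_l_cont (Y : M2 R) : Continuous (LBR_l Y) :=
  Lib_cont_Br.comp (continuous_id.prodMk continuous_const)

theorem LBR_r_cont (X : M2 R) : Continuous (LBR_r X) :=
  Lib_cont_Br.comp (continuous_const.prodMk continuous_id)

/-- a closed group containing the generators contains the closed group generated -/
theorem LBR_min (S : Set (M2 R)) (K : AddSubgroup (M2 R)) (hK : IsClosed (K : Set (M2 R)))
    (h : ∀ x ∈ S, x ∈ K) : (AddSubgroup.closure S).topologicalClosure ≤ K :=
  AddSubgroup.topologicalClosure_minimal _ ((AddSubgroup.closure_le _).2 h) hK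

theorem LBR_sub (S : Set (M2 R)) (x : M2 R) (hx : x ∈ S) :
    x ∈ (AddSubgroup.closure S).topologicalClosure :=
  AddSubgroup.le_topologicalClosure _ (AddSubgroup.subset_closure hx)

theorem LBR_cl (S : Set (M2 R)) :
    IsClosed ((AddSubgroup.closure S).topologicalClosure : Set (M2 R)) :=
  AddSubgroup.isClosed_topologicalClosure _

/-- bracket criterion, first argument -/
theorem LBR_minl (S : Set (M2 R)) (K : AddSubgroup (M2 R)) (hK : IsClosed (K : Set (M2 R)))
    (Y : M2 R) (h : ∀ x ∈ S, Br x Y ∈ K) :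
    ∀ X ∈ (AddSubgroup.closure S).topologicalClosure, Br X Y ∈ K := by
  intro X hX
  have := LBR_min S (K.comap (LBR_l Y)) (hK.preimage (LBR_l_cont Y)) (fun x hx => h x hx)
  exact this hX

/-- bracket criterion, second argument -/
theorem LBR_minr (S : Set (M2 R)) (K : AddSubgroup (M2 R)) (hK : IsClosed (K : Set (M2 R)))
    (X : M2 R) (h : ∀ y ∈ S, Br X y ∈ K) :
    ∀ Y ∈ (AddSubgroup.closure S).topologicalClosure, Br X Y ∈ K := by
  intro Y hY
  have := LBR_min S (K.comap (LBR_r X)) (hK.preimage (LBR_r_cont X)) (fun x hx => h x hx)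
  exact this hY

end

theorem LBR_row : LBR_stmt := by
  intro R _ _ _ _ Γ X hX Y hY
  refine LBR_minl _ (LL Γ) (LBR_cl _) Y ?_ X hX
  rintro _ ⟨g, hg, rfl⟩
  refine LBR_minr _ (LL Γ) (LBR_cl _) (TH g) ?_ Y hY
  rintro _ ⟨h, hh, rfl⟩
  have e : Br (TH g) (TH h) = TH (g * h) - TH (h * g) := by
    rw [Lib_TH_mul, Lib_TH_mul, Lib_Br_swap (TH h) (TH g), smul_neg]
    have : ⅟(2 : R) • Br (TH g) (TH h) + ⅟(2 : R) • Br (TH g) (TH h) = Br (TH g) (TH h) := by
      rw [← two_smul R (⅟(2 : R) • Br (TH g) (TH h)), smul_smul, mul_invOf_self, one_smul]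
    refine this.symm.trans ?_
    abel
  rw [e]
  exact (LL Γ).sub_mem (LBR_sub _ _ ⟨g * h, Γ.mul_mem hg hh, rfl⟩)
    (LBR_sub _ _ ⟨h * g, Γ.mul_mem hh hg, rfl⟩)

end Pool.Agent.PP2
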