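import Pool.Agent.helper1.PP2.LBR

namespace Pool.Agent.PP2

open Topology Matrix Filter

theorem LLE_jac {R : Type} [CommRing R] (U V Y : M2 R) :
    Br (Br U V) Y = Br U (Br V Y) - Br V (Br U Y) := by
  simp only [Br]; noncomm_ring

theorem LLE_row (hLBR : LBR_stmt) : LLE_stmt := by
  intro R _ _ _ _ Γ
  have hcl : ∀ n, IsClosed (Lc Γ n : Set (M2 R)) := by
    intro n
    cases n with
    | zero => exact LBR_cl _
    | succ n => exact LBR_cl _
  have hgen : ∀ n, ∀ X ∈ LL Γ, ∀ Y ∈ Lc Γ n, Br X Y ∈ Lc Γ (n + 1) := by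
    intro n X hX Y hY
    exact LBR_sub _ _ ⟨X, hX, Y, hY, rfl⟩
  have h1 : ∀ n : ℕ, Lc Γ (n + 1) ≤ Lc Γ n := by
    intro n
    induction n with
    | zero =>
      refine LBR_min _ (Lc Γ 0) (hcl 0) ?_
      rintro _ ⟨X, hX, Y, hY, rfl⟩
      exact hLBR R Γ X hX Y hY
    | succ n ih =>
      refine LBR_min _ (Lc Γ (n + 1)) (hcl (n + 1)) ?_
      rintro _ ⟨X, hX, Y, hY, rfl⟩
      exact hgen n X hX Y (ih hY)
  refine ⟨h1, ?_⟩
  intro m
  induction m with
  | zero =>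
    intro n X hX Y hY
    rw [zero_add]
    exact hgen n X hX Y hY
  | succ m ih =>
    intro n X hX Y hY
    refine LBR_minl _ (Lc Γ (m + 1 + n + 1)) (hcl _) Y ?_ X hX
    rintro _ ⟨U, hU, V, hV, rfl⟩
    rw [LLE_jac]
    refine (Lc Γ (m + 1 + n + 1)).sub_mem ?_ ?_
    · have := hgen _ U hU _ (ih n V hV Y hY)
      have e : m + n + 1 + 1 = m + 1 + n + 1 := by omega
      rwa [e] at this
    · have := ih (n + 1) V hV _ (hgen n U hU Y hY)
      have e : m + (n + 1) + 1 = m + 1 + n + 1 := by omega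
      rwa [e] at this

end Pool.Agent.PP2
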