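import Pool.Agent.helper96.PP2.SpecB

namespace Pool.Agent.PP2

open Topology Matrix Filter

section

variable {p : ℕ} {R : Type} [CommRing R] [TopologicalSpace R] [IsTopologicalRing R]
  [CompactSpace R] {J : Ideal R}

/-- a sequence with steps in the powers of `J` converges -/
theorem SQR_lim (h : Setup p R J) (c : ℕ → R) (hc : ∀ k, c (k + 1) - c k ∈ J ^ (k + 1)) :
    ∃ l, Tendsto c atTop (𝓝 l) := by
  obtain ⟨l, hl⟩ := exists_clusterPt_of_compactSpace (map c atTop)
  refine ⟨l, ?_⟩
  rw [tendsto_def]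
  intro s hs
  have h0 : (fun x : R => l + x) ⁻¹' s ∈ 𝓝 (0 : R) := by
    have hcon : Continuous (fun x : R => l + x) := continuous_const.add continuous_id
    apply hcon.continuousAt.preimage_mem_nhds
    simpa using hs
  obtain ⟨I, hI, hIs⟩ := h.basis _ h0
  obtain ⟨n, hn⟩ := h.nil I hI
  have hstep : ∀ k, c (n + k) - c n ∈ I := by
    intro k
    induction k with
    | zero => simp
    | succ k ih =>
      have h1 : c (n + k + 1) - c (n + k) ∈ I := by
        apply hn
        exact Ideal.pow_le_pow_right (by omega) (hc (n + k))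
      have h2 := I.add_mem h1 ih
      have e : c (n + k + 1) - c (n + k) + (c (n + k) - c n) = c (n + (k + 1)) - c n := by
        rw [← add_assoc]; ring
      rwa [e] at h2
  have hlI : {y : R | y - l ∈ I} ∈ 𝓝 l := by
    have hcon : Continuous (fun y : R => y - l) := continuous_id.sub continuous_const
    have : (fun y : R => y - l) ⁻¹' (I : Set R) ∈ 𝓝 l := by
      apply hcon.continuousAt.preimage_mem_nhds
      rw [sub_self]
      exact hI.mem_nhds I.zero_mem
    exact this
  have hex : ∃ k0, n ≤ k0 ∧ c k0 - l ∈ I := by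
    have h3 := clusterPt_iff_nonempty.1 hl hlI
      (V := c '' {k | n ≤ k}) (image_mem_map (mem_atTop n))
    obtain ⟨y, hy1, k0, hk0, rfl⟩ := h3
    exact ⟨k0, hk0, hy1⟩
  obtain ⟨k0, hk0, hk⟩ := hex
  rw [mem_atTop_sets]
  refine ⟨n, fun k hk' => ?_⟩
  have e1 := hstep (k - n)
  have e2 := hstep (k0 - n)
  rw [Nat.add_sub_cancel' hk'] at e1
  rw [Nat.add_sub_cancel' hk0] at e2
  have e3 : c k - l ∈ I := by
    have := I.add_mem (I.sub_mem e1 e2) hk
    have e : c k - c n - (c k0 - c n) + (c k0 - l) = c k - l := by ring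
    rwa [e] at this
  have := hIs e3
  simpa using this

end

theorem SQR_row (hHAV : HAV_stmt) : SQR_stmt := by
  intro p R _ _ _ _ _ _ J hp hp2 h u hu
  have hH := (hHAV p R J hp hp2 h).2
  let c : ℕ → R := fun k => Nat.rec 0 (fun _ x => ⅟(2 : R) * (u - x ^ 2)) k
  have c0 : c 0 = 0 := rfl
  have cs : ∀ k, c (k + 1) = ⅟(2 : R) * (u - c k ^ 2) := fun k => rfl
  have hcJ : ∀ k, c k ∈ J := by
    intro k
    induction k with
    | zero => rw [c0]; exact J.zero_mem
    | succ k ih =>
      rw [cs]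
      exact J.mul_mem_left _ (J.sub_mem hu (by rw [pow_two]; exact J.mul_mem_left _ ih))
  have hc : ∀ k, c (k + 1) - c k ∈ J ^ (k + 1) := by
    intro k
    induction k with
    | zero => rw [c0, sub_zero, zero_add, pow_one]; exact hcJ 1
    | succ k ih =>
      have e : c (k + 1 + 1) - c (k + 1)
          = (-⅟(2 : R) * (c (k + 1) + c k)) * (c (k + 1) - c k) := by
        rw [cs (k + 1)]
        have := cs k
        linear_combination (-1 : R) * this
      rw [e, pow_succ', mul_comm (J) (J ^ (k + 1)), mul_comm (-⅟(2 : R) * (c (k + 1) + c k))]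
      exact Ideal.mul_mem_mul ih (J.mul_mem_left _ (J.add_mem (hcJ (k + 1)) (hcJ k)))
  obtain ⟨l, hl⟩ := SQR_lim h c hc
  have hlJ : l ∈ J := h.closed.mem_of_tendsto hl (Eventually.of_forall hcJ)
  have hl1 : Tendsto (fun k => c (k + 1)) atTop (𝓝 l) := (tendsto_add_atTop_iff_nat 1).2 hl
  have hl2 : Tendsto (fun k => ⅟(2 : R) * (u - c k ^ 2)) atTop (𝓝 (⅟(2 : R) * (u - l ^ 2))) :=
    (tendsto_const_nhds.sub (hl.pow 2)).const_mul _
  have heq : l = ⅟(2 : R) * (u - l ^ 2) := tendsto_nhds_unique hl1 hl2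
  refine ⟨l, hlJ, ?_, ?_⟩
  · have h2 : (2 : R) * l = u - l ^ 2 := by
      have h3 : (2 : R) * l = 2 * (⅟(2 : R) * (u - l ^ 2)) := congrArg (fun x => (2 : R) * x) heq
      rw [← mul_assoc, mul_invOf_self, one_mul] at h3
      exact h3
    linear_combination h2
  · intro S hS hmul hu'
    refine hS.mem_of_tendsto hl (Eventually.of_forall fun k => ?_)
    change c k ∈ S
    induction k with
    | zero => rw [c0]; exact S.zero_mem
    | succ k ih =>
      rw [cs]
      exact hH S hS _ (S.sub_mem hu' (by rw [pow_two]; exact hmul _ ih _ ih))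

end Pool.Agent.PP2
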