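import Pool.Agent.helper1.PP2.SQR

namespace Pool.Agent.PP2

open Topology Matrix Filter

theorem SQU_row : SQU_stmt := by
  intro p R _ _ _ _ _ _ J hp hp2 h
  have h1 : ∀ x ∈ J, ∃ y ∈ J, (1 + x) * (1 + y) = 1 ∧
      ∀ S : AddSubgroup R, IsClosed (S : Set R) → (∀ x' ∈ S, ∀ y' ∈ S, x' * y' ∈ S) → x ∈ S →
        y ∈ S := by
    intro x hx
    let c : ℕ → R := fun k => Nat.rec 0 (fun _ y => -x - x * y) k
    have c0 : c 0 = 0 := rfl
    have cs : ∀ k, c (k + 1) = -x - x * c k := fun k => rfl
    have hcJ : ∀ k, c k ∈ J := by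
      intro k
      induction k with
      | zero => rw [c0]; exact J.zero_mem
      | succ k ih =>
        rw [cs]
        exact J.sub_mem (J.neg_mem hx) (J.mul_mem_left _ ih)
    have hc : ∀ k, c (k + 1) - c k ∈ J ^ (k + 1) := by
      intro k
      induction k with
      | zero => rw [c0, sub_zero, zero_add, pow_one]; exact hcJ 1
      | succ k ih =>
        have e : c (k + 1 + 1) - c (k + 1) = (c (k + 1) - c k) * (-x) := by
          rw [cs (k + 1)]
          have := cs k
          linear_combination (-1 : R) * this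
        rw [e, pow_succ (J) (k + 1)]
        exact Ideal.mul_mem_mul ih (J.neg_mem hx)
    obtain ⟨l, hl⟩ := SQR_lim h c hc
    have hlJ : l ∈ J := h.closed.mem_of_tendsto hl (Eventually.of_forall hcJ)
    have hl1 : Tendsto (fun k => c (k + 1)) atTop (𝓝 l) := (tendsto_add_atTop_iff_nat 1).2 hl
    have hl2 : Tendsto (fun k => -x - x * c k) atTop (𝓝 (-x - x * l)) :=
      tendsto_const_nhds.sub (hl.const_mul _)
    have heq : l = -x - x * l := tendsto_nhds_unique hl1 hl2
    refine ⟨l, hlJ, ?_, ?_⟩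
    · linear_combination heq
    · intro S hS hmul hx'
      refine hS.mem_of_tendsto hl (Eventually.of_forall fun k => ?_)
      change c k ∈ S
      induction k with
      | zero => rw [c0]; exact S.zero_mem
      | succ k ih =>
        rw [cs]
        exact S.sub_mem (S.neg_mem hx') (hmul _ hx' _ ih)
  refine ⟨h1, ?_⟩
  intro c hc c' hc' he
  obtain ⟨y, -, hy, -⟩ := h1 (⅟(2 : R) * (c + c')) (J.mul_mem_left _ (J.add_mem hc hc'))
  have h2 : (2 : R) * ⅟(2 : R) = 1 := mul_invOf_self 2
  have h3 : (c - c') * (2 * (1 + ⅟(2 : R) * (c + c'))) = 0 := by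
    linear_combination he + (c - c') * (c + c') * h2
  have h4 : c - c' = (c - c') * (2 * (1 + ⅟(2 : R) * (c + c'))) * (⅟(2 : R) * (1 + y)) := by
    linear_combination (-(c - c')) * hy - (c - c') * ((1 + ⅟(2 : R) * (c + c')) * (1 + y)) * h2
  rw [h3, zero_mul] at h4
  exact sub_eq_zero.1 h4

end Pool.Agent.PP2
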